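import Pool.Agent.Helper64.PQ.Goals

/-!
Goal C0 of project PQ: the deck group of a normalized uniformization is Fuchsian with the horoball
`Im z > 1` precisely invariant.
-/

set_option autoImplicit false

open Topology Filter Set Metric UpperHalfPlane
open scoped MatrixGroups

namespace Pool.Agent.Helper67.PQ

open Pool.Agent.Helper64.PQ

/-- the action, in complex coordinates -/
lemma coe_sl (g : SL(2, ℝ)) (z : ℍ) :
    ((g • z : ℍ) : ℂ) = ((g 0 0 : ℂ) * z + (g 0 1 : ℂ)) / ((g 1 0 : ℂ) * z + (g 1 1 : ℂ)) := by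
  rw [coe_specialLinearGroup_apply]
  rfl

lemma den_ne (g : SL(2, ℝ)) (z : ℍ) : (g 1 0 : ℂ) * z + (g 1 1 : ℂ) ≠ 0 := by
  intro h
  have h1 := congrArg Complex.im h
  have h2 := congrArg Complex.re h
  simp only [Complex.add_im, Complex.mul_im, Complex.ofReal_re, Complex.ofReal_im, zero_mul,
    add_zero, Complex.zero_im, Complex.add_re, Complex.mul_re, Complex.zero_re, sub_zero] at h1 h2
  have h3 : (0 : ℝ) < (z : ℂ).im := z.im_pos
  have h4 : g 1 0 = 0 := by
    rcases mul_eq_zero.mp h1 with h | h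
    · exact h
    · exact absurd h h3.ne'
  have h5 : g 1 1 = 0 := by
    rw [h4] at h2
    simpa using h2
  have h6 := g.det_coe
  rw [Matrix.det_fin_two] at h6
  have e1 : (g : Matrix (Fin 2) (Fin 2) ℝ) 1 0 = 0 := h4
  have e2 : (g : Matrix (Fin 2) (Fin 2) ℝ) 1 1 = 0 := h5
  rw [e1, e2] at h6
  simp at h6

lemma T1_coe (z : ℍ) : ((T1 • z : ℍ) : ℂ) = z + 1 := by
  rw [coe_sl]
  have h1 : T1 0 0 = 1 := rfl
  have h2 : T1 0 1 = 1 := rfl
  have h3 : T1 1 0 = 0 := rfl
  have h4 : T1 1 1 = 1 := rfl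
  rw [h1, h2, h3, h4]
  simp

/-- the points `2 exp s i` -/
noncomputable def pz (s : ℝ) : ℍ := ⟨⟨0, 2 * Real.exp s⟩, by
  show 0 < 2 * Real.exp s
  positivity⟩

lemma pz_coe (s : ℝ) : (pz s : ℂ) = ⟨0, 2 * Real.exp s⟩ := rfl

lemma pz_im (s : ℝ) : (pz s).im = 2 * Real.exp s := rfl

lemma pz_cont : Continuous pz := by
  have h : Continuous fun s : ℝ => (⟨0, 2 * Real.exp s⟩ : ℂ) := by
    have : (fun s : ℝ => (⟨0, 2 * Real.exp s⟩ : ℂ)) =
        fun s : ℝ => ((2 * Real.exp s : ℝ) : ℂ) * Complex.I := by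
      funext s
      apply Complex.ext
      · simp
      · rw [Complex.mul_im, Complex.ofReal_re, Complex.ofReal_im, Complex.I_re, Complex.I_im]
        ring
    rw [this]
    fun_prop
  exact h.upperHalfPlaneMk _

/-- a Moebius transformation which is `z ↦ z + 1` at two points of the imaginary axis -/
lemma eq_T1 (g : SL(2, ℝ)) (s : ℝ) (hs : s ≠ 0) (h0 : g • pz 0 = T1 • pz 0)
    (h1 : g • pz s = T1 • pz s) : ∀ z : ℍ, g • z = T1 • z := by
  have key : ∀ t : ℝ, g • pz t = T1 • pz t →
      g 1 1 - g 0 1 = g 1 0 * (2 * Real.exp t) ^ 2 ∧ g 0 0 = g 1 0 + g 1 1 := by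
    intro t ht
    have h2 : ((g • pz t : ℍ) : ℂ) = ((T1 • pz t : ℍ) : ℂ) := by rw [ht]
    rw [T1_coe, coe_sl, div_eq_iff (den_ne g _), pz_coe] at h2
    have h3 := congrArg Complex.im h2
    have h4 := congrArg Complex.re h2
    simp only [Complex.add_im, Complex.mul_im, Complex.ofReal_re, Complex.ofReal_im, zero_mul,
      add_zero, Complex.add_re, Complex.mul_re, sub_zero, mul_zero, Complex.one_re,
      Complex.one_im, zero_add] at h3 h4
    have hp : 0 < 2 * Real.exp t := by positivity
    constructor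
    · nlinarith
    · have : (2 * Real.exp t) * (g 0 0) = (2 * Real.exp t) * (g 1 0 + g 1 1) := by linarith
      exact mul_left_cancel₀ hp.ne' this
  obtain ⟨k1, k2⟩ := key 0 h0
  obtain ⟨k3, _⟩ := key s h1
  have hne : (2 * Real.exp s) ^ 2 ≠ (2 * Real.exp 0) ^ 2 := by
    intro h
    have h5 : 2 * Real.exp s = 2 * Real.exp 0 := by
      have ha : 0 < 2 * Real.exp s := by positivity
      have hb : 0 < 2 * Real.exp 0 := by positivity
      nlinarith
    have h6 : Real.exp s = Real.exp 0 := by linarith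
    exact hs (Real.exp_injective h6)
  have hc : g 1 0 = 0 := by
    have h6 : g 1 0 * ((2 * Real.exp s) ^ 2 - (2 * Real.exp 0) ^ 2) = 0 := by linarith
    rcases mul_eq_zero.mp h6 with h | h
    · exact h
    · exact absurd (sub_eq_zero.mp h) hne
  have hd : g 0 1 = g 1 1 := by
    rw [hc] at k1
    linarith
  have ha : g 0 0 = g 1 1 := by
    rw [hc] at k2
    linarith
  intro z
  apply UpperHalfPlane.ext
  have hden := den_ne g z
  rw [T1_coe, coe_sl, div_eq_iff hden, hc, hd, ha]
  push_cast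
  ring

universe v

theorem goalC0 : GoalC0.{v} := by
  intro X _ _ q r u hu
  refine ⟨?_, ?_, ?_⟩
  · -- the translation
    have him : 1 < (pz 0).im := by
      rw [pz_im, Real.exp_zero]
      norm_num
    have hT1im : ∀ z : ℍ, (T1 • z : ℍ).im = z.im := by
      intro z
      have h := congrArg Complex.im (T1_coe z)
      simpa using h
    have hpar : ∀ z : ℍ, 1 < z.im → u (T1 • z) = u z := by
      intro z hz
      refine ((hu.par z (T1 • z) hz (by rw [hT1im]; exact hz)).mpr ⟨1, ?_⟩).symm
      rw [T1_coe]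
      simp
    obtain ⟨γ, hγ, hγz⟩ := hu.deck (pz 0) (T1 • pz 0) (hpar _ him).symm
    have hmem : ∀ z : ℍ, u z ∈ ({q, r}ᶜ : Set X) := by
      intro z
      rw [← hu.range]
      exact ⟨z, rfl⟩
    obtain ⟨e, he, hue⟩ := hu.cov.isLocalHomeomorphOn (T1 • pz 0) (hmem _)
    have hc1 : Continuous fun s : ℝ => γ • pz s := pz_cont.const_smul γ
    have hc2 : Continuous fun s : ℝ => T1 • pz s := pz_cont.const_smul T1
    have hev : ∀ᶠ s in 𝓝 (0 : ℝ), γ • pz s ∈ e.source ∧ T1 • pz s ∈ e.source ∧
        1 < (pz s).im := by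
      refine ((hc1.tendsto 0).eventually ?_).and (((hc2.tendsto 0).eventually ?_).and ?_)
      · show ∀ᶠ z in 𝓝 (γ • pz 0), z ∈ e.source
        rw [hγz]
        exact e.open_source.mem_nhds he
      · exact e.open_source.mem_nhds he
      · have h : Continuous fun s => (pz s).im := UpperHalfPlane.continuous_im.comp pz_cont
        exact (h.tendsto 0).eventually (lt_mem_nhds him)
    obtain ⟨s, hs, h1, h2, h3⟩ : ∃ s : ℝ, s ≠ 0 ∧ γ • pz s ∈ e.source ∧ T1 • pz s ∈ e.source ∧
        1 < (pz s).im := by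
      obtain ⟨ε, hε, hb⟩ := Metric.eventually_nhds_iff.mp hev
      refine ⟨ε / 2, by positivity, hb ?_⟩
      rw [Real.dist_eq, sub_zero, abs_of_pos (by positivity)]
      linarith
    have h4 : γ • pz s = T1 • pz s := by
      apply e.injOn h1 h2
      rw [← hue, hγ (pz s), hpar _ h3]
    have h5 := eq_T1 γ s hs hγz h4
    intro z
    rw [← h5 z]
    exact hγ z
  · -- the size of the lower left entry
    intro γ hγ
    by_contra hcon
    push Not at hcon
    obtain ⟨hc, hc1⟩ := hcon
    have hcp : 0 < |γ 1 0| := abs_pos.mpr hc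
    set c := γ 1 0 with hcdef
    set d := γ 1 1 with hddef
    have hinv : 1 < 1 / |c| := by
      rw [lt_div_iff₀ hcp]
      linarith
    set t : ℝ := (1 + 1 / |c|) / 2 with ht
    have ht1 : 1 < t := by
      rw [ht]
      linarith
    have ht2 : t < 1 / |c| := by
      rw [ht]
      linarith
    have ht0 : 0 < t := by linarith
    let z : ℍ := ⟨⟨-d / c, t⟩, ht0⟩
    have hzim : z.im = t := rfl
    have hzc : (z : ℂ) = ⟨-d / c, t⟩ := rfl
    have hden : (c : ℂ) * z + (d : ℂ) = ((c * t : ℝ) : ℂ) * Complex.I := by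
      rw [hzc]
      apply Complex.ext
      · simp
        field_simp
        ring
      · simp
    have him : (γ • z : ℍ).im = 1 / (c ^ 2 * t) := by
      have h1 : (γ • z : ℍ).im = z.im / Complex.normSq ((c : ℂ) * z + (d : ℂ)) := by
        have h2 := congrArg Complex.im (coe_sl γ z)
        have hdne := den_ne γ z
        have hns : Complex.normSq ((c : ℂ) * z + (d : ℂ)) ≠ 0 := by
          rw [Ne, Complex.normSq_eq_zero]
          exact hdne
        have h3 : ((γ • z : ℍ) : ℂ).im = (γ • z : ℍ).im := rfl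
        rw [h3] at h2
        rw [h2, Complex.div_im, ← hcdef, ← hddef]
        have hdet : γ 0 0 * d - γ 0 1 * c = 1 := by
          have := γ.det_coe
          rw [Matrix.det_fin_two] at this
          exact this
        have hzi : (z : ℂ).im = z.im := rfl
        simp only [Complex.add_im, Complex.mul_im, Complex.ofReal_re, Complex.ofReal_im, zero_mul,
          add_zero, Complex.add_re, Complex.mul_re, sub_zero, hzi]
        rw [← sub_div]
        congr 1
        linear_combination z.im * hdet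
      rw [h1, hden, hzim]
      rw [map_mul, Complex.normSq_ofReal, Complex.normSq_I]
      field_simp
    have hc2 : 0 < c ^ 2 := by positivity
    have hct : |c| * t < 1 := by
      rw [lt_div_iff₀ hcp] at ht2
      linarith
    have hbig : 1 < 1 / (c ^ 2 * t) := by
      rw [lt_div_iff₀ (by positivity), one_mul, ← sq_abs c]
      nlinarith
    have hpar := (hu.par z (γ • z) (by rw [hzim]; exact ht1) (by rw [him]; exact hbig)).mp
      (hγ z).symm
    obtain ⟨n, hn⟩ := hpar
    have h5 := congrArg Complex.im hn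
    have h6 : ((γ • z : ℍ) : ℂ).im = (γ • z : ℍ).im := rfl
    rw [h6, him] at h5
    have h7 : ((z : ℂ) + n).im = t := by
      rw [hzc]
      simp
    rw [h7, div_eq_iff (by positivity), ← sq_abs c] at h5
    have h8 : (|c| * t) * (|c| * t) < 1 := by nlinarith [mul_pos hcp ht0]
    nlinarith
  · -- the stabilizer of infinity
    intro γ hγ hc
    have hdet : γ 0 0 * γ 1 1 = 1 := by
      have := γ.det_coe
      rw [Matrix.det_fin_two] at this
      have e1 : (γ : Matrix (Fin 2) (Fin 2) ℝ) 1 0 = 0 := hc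
      rw [e1, mul_zero, sub_zero] at this
      exact this
    set a := γ 0 0 with hadef
    have ha : a ≠ 0 := left_ne_zero_of_mul_eq_one hdet
    have hd : γ 1 1 = a⁻¹ := eq_inv_of_mul_eq_one_right hdet
    have ha2 : 0 < a ^ 2 := by positivity
    set t : ℝ := 2 + 1 / a ^ 2 with ht
    have ht1 : 1 < t := by
      have : 0 < 1 / a ^ 2 := by positivity
      rw [ht]
      linarith
    have ht0 : 0 < t := by linarith
    let z : ℍ := ⟨⟨0, t⟩, ht0⟩
    have hzim : z.im = t := rfl
    have hzc : (z : ℂ) = ⟨0, t⟩ := rfl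
    have hz : ((γ • z : ℍ) : ℂ) = ⟨a * γ 0 1, a ^ 2 * t⟩ := by
      rw [coe_sl, hc, hd, ← hadef, hzc]
      have h1 : (((0 : ℝ) : ℂ) * (⟨0, t⟩ : ℂ) + ((a⁻¹ : ℝ) : ℂ)) = ((a⁻¹ : ℝ) : ℂ) := by simp
      rw [h1, Complex.ofReal_inv, div_inv_eq_mul]
      apply Complex.ext
      · simp
        ring
      · simp
        ring
    have him : (γ • z : ℍ).im = a ^ 2 * t := by
      have h1 : ((γ • z : ℍ) : ℂ).im = (γ • z : ℍ).im := rfl
      rw [← h1, hz]
    have hbig : 1 < a ^ 2 * t := by
      rw [ht]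
      have : a ^ 2 * (2 + 1 / a ^ 2) = 2 * a ^ 2 + 1 := by
        field_simp
      rw [this]
      linarith
    obtain ⟨n, hn⟩ := (hu.par z (γ • z) (by rw [hzim]; exact ht1)
      (by rw [him]; exact hbig)).mp (hγ z).symm
    rw [hz, hzc] at hn
    have h5 := congrArg Complex.im hn
    have h6 := congrArg Complex.re hn
    rw [Complex.add_im, Complex.intCast_im, add_zero] at h5
    rw [Complex.add_re, Complex.intCast_re, zero_add] at h6
    have h7 : a ^ 2 = 1 := by
      have h9 : a ^ 2 * t = 1 * t := by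
        rw [one_mul]
        exact h5
      exact mul_right_cancel₀ ht0.ne' h9
    have h8 : |a| = 1 := by
      have := sq_abs a
      nlinarith [abs_nonneg a]
    refine ⟨h8, n, ?_⟩
    calc γ 0 1 = a ^ 2 * γ 0 1 := by rw [h7, one_mul]
      _ = (a * γ 0 1) * a := by ring
      _ = n * a := by
          have h10 : a * γ 0 1 = n := h6
          rw [h10]

end Pool.Agent.Helper67.PQ
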